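import Mathlib
import Pool.Agent.W443.J6.Stms2
import Pool.Agent.W319.J6.E1

set_option autoImplicit false

/-! The vertical edge, refined (statement `S_E1P` of `Pool.Agent.W443.J6.Stms2`). -/

open Polynomial Pool.Agent.W443.J6

namespace Pool.Agent.W74.J6

universe u

theorem t_E1P : S_E1P.{u} := by
  intro k _ _ _ U φ N hN hOD hlt
  have hU : U ≠ 0 := by
    rintro rfl
    rw [natDegree_zero] at hlt
    omega
  have h := Pool.Agent.W319.J6.od_eq U φ N hOD
  have hq1 : 1 ≤ U.natDegree := by omega
  have hφ : φ ≠ 0 := by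
    rintro rfl
    apply hU
    rw [← h]; simp
  have hr := Pool.Agent.W319.J6.root U φ N hU h
  classical
  -- the zeros of `φ` are simple
  have hnd : φ.roots.Nodup := by
    rw [Multiset.nodup_iff_count_le_one]
    intro y
    rw [count_roots]
    by_contra hcon
    push Not at hcon
    have h1 := (one_lt_rootMultiplicity_iff_isRoot hφ).1 hcon
    have h2 := (hr y (Or.inr h1.1)).2
    have h3 : (derivative φ).eval y = 0 := h1.2
    rw [h3, mul_zero] at h2
    exact zero_ne_one h2
  set S := φ.roots.toFinset with hS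
  have hcard : S.card = φ.natDegree := by
    rw [hS, Multiset.toFinset_card_of_nodup hnd]
    exact (IsAlgClosed.splits φ).natDegree_eq_card_roots.symm
  have hmem : ∀ y ∈ S, φ.IsRoot y := fun y hy => by
    rw [hS, Multiset.mem_toFinset, mem_roots hφ] at hy
    exact hy
  have hsub : U.roots.toFinset ⊆ S := by
    intro y hy
    rw [Multiset.mem_toFinset, mem_roots hU] at hy
    rw [hS, Multiset.mem_toFinset, mem_roots hφ]
    exact (hr y (Or.inl hy)).1
  have hsum : ∑ y ∈ S, U.rootMultiplicity y = U.natDegree := by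
    rw [(IsAlgClosed.splits U).natDegree_eq_card_roots, ← Multiset.toFinset_sum_count_eq]
    symm
    rw [Finset.sum_subset hsub]
    · exact Finset.sum_congr rfl fun y _ => count_roots U
    · intro y _ hy
      rw [Multiset.mem_toFinset] at hy
      exact Multiset.count_eq_zero.2 hy
  have hne : ∀ y ∈ S, U.rootMultiplicity y ≠ N := by
    intro y hy hc
    have h1 := (hr y (Or.inr (hmem y hy))).2
    rw [hc, sub_self, zero_mul] at h1
    exact zero_ne_one h1
  have hSne : S.Nonempty := by
    by_contra hcon
    rw [Finset.not_nonempty_iff_eq_empty] at hcon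
    rw [hcon, Finset.sum_empty] at hsum
    omega
  have he1 : 1 ≤ φ.natDegree := by
    rw [← hcard]; exact Finset.card_pos.2 hSne
  rcases Nat.lt_or_ge 1 φ.natDegree with he | he
  · have h1 := Pool.Agent.W319.J6.degs U φ N hU hφ h hq1 he
    have h3 : ∃ y, N < U.rootMultiplicity y := by
      by_contra hcon
      push Not at hcon
      have h2 : ∑ y ∈ S, U.rootMultiplicity y < ∑ y ∈ S, N :=
        Finset.sum_lt_sum_of_nonempty hSne fun y hy => lt_of_le_of_ne (hcon y) (hne y hy)
      rw [hsum, Finset.sum_const, hcard, smul_eq_mul, h1, mul_comm] at h2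
      exact lt_irrefl _ h2
    obtain ⟨y, hy⟩ := h3
    exact ⟨y, hy, Or.inl (h1 ▸ Dvd.intro _ rfl)⟩
  · have he' : S.card = 1 := by omega
    obtain ⟨y, hy⟩ := Finset.card_eq_one.1 he'
    have hvy : U.rootMultiplicity y = U.natDegree := by
      rw [hy, Finset.sum_singleton] at hsum
      exact hsum
    exact ⟨y, by rw [hvy]; exact hlt, Or.inr hvy⟩

end Pool.Agent.W74.J6
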